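import Pool.Agent.Lib.MP_38bb4c_an.ZetaTwo

/-!
# MP_38bb4c_an: the Weyl kernels `K ω` and the Riemann hypothesis
-/

open Complex

namespace Pool.Agent.Results.MP_38bb4c_an.WeylKernelRH

open Pool.Agent.Weyl

/-- The kernels `K ω`, `|ω| < 1/2`, are all positive semidefinite if and only if the Riemann
hypothesis holds; for a single `ω` a zero free half plane gives positivity and conversely. -/
theorem result :
    ((∀ ω : ℝ, |ω| < 1 / 2 → PSD (K ω)) ↔ RiemannHypothesis) ∧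
    ∀ ω : ℝ, |ω| < 3 / 2 →
      ((∀ s : ℂ, 1 / 2 + |ω| < s.re → riemannZeta s ≠ 0) → PSD (K ω)) ∧
      (PSD (K ω) → ∀ s : ℂ, 1 / 2 + 2 * |ω| < s.re → riemannZeta s ≠ 0) := by
  obtain ⟨h1, -, h3, h4, -⟩ := final2
  exact ⟨h1, fun ω hω => ⟨h3 ω hω, h4 ω⟩⟩

end Pool.Agent.Results.MP_38bb4c_an.WeylKernelRH
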